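import Pool.Agent.V11181.FC.Trees
import Pool.Agent.V11181.FC.Cut
set_option autoImplicit false

/-!
A 2-connected cubic graph on 32 vertices with fault cost 1.
-/

namespace Pool.Agent.Results.MP_54aac5_co.CubicFaultCostOne
open Finset Pool.Agent.V11181.FC

theorem bit_symm : ∀ a b : Fin 32, bit a.val b.val = true → bit b.val a.val = true := by
  decide +kernel

theorem bit_irrefl : ∀ a : Fin 32, bit a.val a.val = false := by
  decide +kernel

/-- The graph. -/
def G32 : SimpleGraph (Fin 32) where
  Adj a b := bit a.val b.val = true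
  symm := ⟨fun a b h => bit_symm a b h⟩
  loopless := ⟨fun a h => by rw [bit_irrefl a] at h; cases h⟩

instance : DecidableRel G32.Adj := fun a b => inferInstanceAs (Decidable (bit a.val b.val = true))

theorem deg_three : ∀ w : Fin 32,
    (univ.filter (fun x : Fin 32 => bit w.val x.val = true)).card = 3 := by
  decide +kernel

theorem dg_three (w : Fin 32) : dg G32 w = 3 := by
  rw [dg_eq, ← deg_three w]
  unfold SimpleGraph.degree
  congr 1
  ext x
  simp [G32]

/-- the two sides of the cut -/
def s0 (x : Fin 16) : Fin 32 := ⟨x.val, by omega⟩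
def s1 (x : Fin 16) : Fin 32 := ⟨16 + x.val, by omega⟩

theorem s0_inj : Function.Injective s0 := by
  intro x y h
  have := congrArg Fin.val h
  simp only [s0] at this
  exact Fin.ext this

theorem s1_inj : Function.Injective s1 := by
  intro x y h
  have := congrArg Fin.val h
  simp only [s1] at this
  exact Fin.ext (by omega)

theorem s1_adj : ∀ x y : Fin 16, bit (16 + x.val) (16 + y.val) = true →
    bit x.val y.val = true := by decide +kernel

theorem cross0 : ∀ x : Fin 16, ∀ w : Fin 16, bit x.val (16 + w.val) = true →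
    (x.val = 0 ∨ x.val = 1) ∧ w = x := by decide +kernel

theorem out0 {w : Fin 32} (h : ∀ y, s0 y ≠ w) : ∃ u : Fin 16, w = s1 u := by
  have hw : 16 ≤ w.val := by
    by_contra hc
    push Not at hc
    exact h ⟨w.val, hc⟩ (Fin.ext rfl)
  exact ⟨⟨w.val - 16, by omega⟩, Fin.ext (by simp only [s1]; omega)⟩

theorem out1 {w : Fin 32} (h : ∀ y, s1 y ≠ w) : ∃ u : Fin 16, w = s0 u := by
  have hw : w.val < 16 := by
    by_contra hc
    push Not at hc
    exact h ⟨w.val - 16, by omega⟩ (Fin.ext (by simp only [s1]; omega))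
  exact ⟨⟨w.val, hw⟩, Fin.ext rfl⟩

theorem adj_cross {x w : Fin 16} (h : G32.Adj (s0 x) (s1 w)) :
    (x.val = 0 ∨ x.val = 1) ∧ w = x := cross0 x w h

theorem not_ham : ¬ Hamiltonian G32 := by
  refine no_ham_cycle s0 s0_inj (fun x y h => h) ?_ ?_ ⟨s1 0, ?_⟩
  · intro x w hw h
    obtain ⟨u, rfl⟩ := out0 hw
    exact (adj_cross h).1
  · intro x w w' hw hw' h h'
    obtain ⟨u, rfl⟩ := out0 hw
    obtain ⟨u', rfl⟩ := out0 hw'
    rw [(adj_cross h).2, (adj_cross h').2]
  · intro y h
    have := congrArg Fin.val h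
    simp only [s0, s1] at this
    have := y.isLt
    simp at *
    omega

theorem not_ham_del (v : Fin 32) : ¬ Hamiltonian (del G32 v) := by
  by_cases hv : v.val < 16
  · have hmem : ∀ x : Fin 16, s1 x ∈ ({v}ᶜ : Set (Fin 32)) := by
      intro x hx
      have : s1 x = v := hx
      have := congrArg Fin.val this
      simp only [s1] at this
      omega
    refine no_ham_cycle (fun x => ⟨s1 x, hmem x⟩) ?_ (fun x y h => s1_adj x y h) ?_ ?_ ?_
    · intro x y h
      exact s1_inj (congrArg Subtype.val h)
    · intro x w hw h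
      obtain ⟨u, hu⟩ := out1 (w := w.1) (fun y hy => hw y (Subtype.ext hy))
      have h' : G32.Adj (s1 x) w.1 := h
      rw [hu] at h'
      have := adj_cross h'.symm
      rw [this.2]
      exact this.1
    · intro x w w' hw hw' h h'
      obtain ⟨u, hu⟩ := out1 (w := w.1) (fun y hy => hw y (Subtype.ext hy))
      obtain ⟨u', hu'⟩ := out1 (w := w'.1) (fun y hy => hw' y (Subtype.ext hy))
      have g : G32.Adj (s1 x) w.1 := h
      have g' : G32.Adj (s1 x) w'.1 := h'
      rw [hu] at g
      rw [hu'] at g'
      apply Subtype.ext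
      rw [hu, hu', ← (adj_cross g.symm).2, ← (adj_cross g'.symm).2]
    · -- a vertex of the first side other than `v`
      obtain ⟨u, hu⟩ : ∃ u : Fin 16, s0 u ≠ v := by
        by_cases h0 : s0 0 = v
        · refine ⟨1, ?_⟩
          rw [← h0]
          intro h
          have := s0_inj h
          exact absurd this (by decide)
        · exact ⟨0, h0⟩
      refine ⟨⟨s0 u, hu⟩, ?_⟩
      intro y h
      have := congrArg (fun z : ({v}ᶜ : Set (Fin 32)) => z.1.val) h
      simp only [s0, s1] at this
      have := u.isLt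
      omega
  · push Not at hv
    have hmem : ∀ x : Fin 16, s0 x ∈ ({v}ᶜ : Set (Fin 32)) := by
      intro x hx
      have : s0 x = v := hx
      have := congrArg Fin.val this
      simp only [s0] at this
      omega
    refine no_ham_cycle (fun x => ⟨s0 x, hmem x⟩) ?_ (fun x y h => h) ?_ ?_ ?_
    · intro x y h
      exact s0_inj (congrArg Subtype.val h)
    · intro x w hw h
      obtain ⟨u, hu⟩ := out0 (w := w.1) (fun y hy => hw y (Subtype.ext hy))
      have h' : G32.Adj (s0 x) w.1 := h
      rw [hu] at h'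
      exact (adj_cross h').1
    · intro x w w' hw hw' h h'
      obtain ⟨u, hu⟩ := out0 (w := w.1) (fun y hy => hw y (Subtype.ext hy))
      obtain ⟨u', hu'⟩ := out0 (w := w'.1) (fun y hy => hw' y (Subtype.ext hy))
      have g : G32.Adj (s0 x) w.1 := h
      have g' : G32.Adj (s0 x) w'.1 := h'
      rw [hu] at g
      rw [hu'] at g'
      apply Subtype.ext
      rw [hu, hu', (adj_cross g).2, (adj_cross g').2]
    · obtain ⟨u, hu⟩ : ∃ u : Fin 16, s1 u ≠ v := by
        by_cases h0 : s1 0 = v
        · refine ⟨1, ?_⟩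
          rw [← h0]
          intro h
          have := s1_inj h
          exact absurd this (by decide)
        · exact ⟨0, h0⟩
      refine ⟨⟨s1 u, hu⟩, ?_⟩
      intro y h
      have := congrArg (fun z : ({v}ᶜ : Set (Fin 32)) => z.1.val) h
      simp only [s0, s1] at this
      have := y.isLt
      omega

/-! ### The spanning paths -/

/-- digits of the coded spanning path -/
def fd (i : ℕ) : ℕ := fullP / 32 ^ i % 32
def fp (x : ℕ) : ℕ := fullQ / 32 ^ x % 32
/-- digits of the coded paths of the vertex-deleted graphs -/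
def dig (v i : ℕ) : ℕ := paths.getD v 0 / 32 ^ i % 32
def pos (v x : ℕ) : ℕ := invs.getD v 0 / 32 ^ x % 32

theorem f1 : ∀ i : Fin 32, fp (fd i.val) = i.val := by decide +kernel
theorem f2 : ∀ i : Fin 31, bit (fd i.val) (fd (i.val + 1)) = true := by decide +kernel
theorem f3 : fd 0 = 2 ∧ fd 31 = 18 := by decide +kernel
theorem c1 : ∀ v : Fin 32, ∀ i : Fin 31, pos v.val (dig v.val i.val) = i.val := by decide +kernel
theorem c2 : ∀ v : Fin 32, ∀ i : Fin 31, dig v.val i.val ≠ v.val := by decide +kernel
theorem c3 : ∀ v : Fin 32, ∀ i : Fin 30,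
    bit (dig v.val i.val) (dig v.val (i.val + 1)) = true := by decide +kernel
theorem c4 : ∀ v : Fin 32, v.val ≠ 2 → dig v.val 0 = 2 := by decide +kernel
theorem c5 : ∀ v : Fin 32, v.val ≠ 18 → dig v.val 30 = 18 := by decide +kernel
theorem c6 : dig 2 0 = 3 ∧ dig 18 30 = 19 := by decide +kernel

/-- the spanning path of the graph -/
def F : Fin (31 + 1) → Fin 32 := fun i => ⟨fd i.val, Nat.mod_lt _ (by norm_num)⟩

theorem F_bij : Function.Bijective F := by
  rw [Fintype.bijective_iff_injective_and_card]
  refine ⟨?_, rfl⟩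
  intro i j h
  have h' : fd i.val = fd j.val := congrArg Fin.val h
  have e := f1 i
  rw [h', f1 j] at e
  exact Fin.ext e.symm

theorem F_le : pathOn F ≤ G32 := by
  apply pathOn_le
  intro i j hij
  show bit (fd i.val) (fd j.val) = true
  rw [← hij]
  exact f2 ⟨i.val, by have := j.isLt; omega⟩

theorem F_dg (w : Fin 32) : dg (pathOn F) w = if w.val = 2 ∨ w.val = 18 then 1 else 2 := by
  obtain ⟨i, rfl⟩ := F_bij.surjective w
  rw [pathOn_dg F_bij (by norm_num)]
  have hF : (F i).val = fd i.val := rfl
  rw [hF]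
  congr 1
  apply propext
  constructor
  · rintro (h | h)
    · left; rw [h]; exact f3.1
    · right; rw [show i.val = 31 by omega]; exact f3.2
  · rintro (h | h)
    · left
      have e := f1 i
      have e0 : fp (fd 0) = 0 := f1 0
      rw [h, ← f3.1, e0] at e
      exact e.symm
    · right
      have e := f1 i
      rw [h, ← f3.2] at e
      have e' := f1 31
      have e'' : fp (fd 31) = 31 := e'
      rw [e''] at e
      omega

/-- the spanning paths of the vertex-deleted graphs -/
def P (v : Fin 32) : Fin (30 + 1) → ↥({v}ᶜ : Set (Fin 32)) := fun i =>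
  ⟨⟨dig v.val i.val, Nat.mod_lt _ (by norm_num)⟩, fun h => c2 v i (congrArg Fin.val h)⟩

theorem P_bij (v : Fin 32) : Function.Bijective (P v) := by
  rw [Fintype.bijective_iff_injective_and_card]
  constructor
  · intro i j h
    have h' : dig v.val i.val = dig v.val j.val := congrArg (fun z => z.1.val) h
    have e := c1 v i
    rw [h', c1 v j] at e
    exact Fin.ext e.symm
  · rw [Fintype.card_compl_set]
    simp

theorem P_le (v : Fin 32) : pathOn (P v) ≤ del G32 v := by
  apply pathOn_le
  intro i j hij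
  show bit (dig v.val i.val) (dig v.val j.val) = true
  rw [← hij]
  exact c3 v ⟨i.val, by have := j.isLt; omega⟩

theorem P_dg (v : Fin 32) (w : ↥({v}ᶜ : Set (Fin 32))) : dg (pathOn (P v)) w =
    if w.1.val = dig v.val 0 ∨ w.1.val = dig v.val 30 then 1 else 2 := by
  obtain ⟨i, rfl⟩ := (P_bij v).surjective w
  rw [pathOn_dg (P_bij v) (by norm_num)]
  have hP : (P v i).1.val = dig v.val i.val := rfl
  rw [hP]
  congr 1
  apply propext
  constructor
  · rintro (h | h)
    · left; rw [h]
    · right; rw [show i.val = 30 by omega]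
  · rintro (h | h)
    · left
      have e := c1 v i
      rw [h] at e
      have e' : pos v.val (dig v.val 0) = 0 := c1 v 0
      rw [e'] at e
      exact e.symm
    · right
      have e := c1 v i
      rw [h] at e
      have e' : pos v.val (dig v.val 30) = 30 := c1 v 30
      rw [e'] at e
      omega

theorem cost_le (v : Fin 32) : cost (pathOn F) v (pathOn (P v)) ≤ 1 := by
  unfold cost
  rw [Set.ncard_le_one]
  intro x hx y hy
  simp only [Set.mem_ofPred_eq] at hx hy
  rw [F_dg, P_dg] at hx hy
  have hxv : x.1.val ≠ v.val := fun h => x.2 (Fin.ext h)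
  have hyv : y.1.val ≠ v.val := fun h => y.2 (Fin.ext h)
  by_cases h2 : v.val = 2
  · have e5 := c5 v (by omega)
    rw [e5, h2, c6.1] at hx hy
    rw [h2] at hxv hyv
    apply Subtype.ext
    apply Fin.ext
    split_ifs at hx hy <;> omega
  · by_cases h18 : v.val = 18
    · have e4 := c4 v h2
      rw [e4, h18, c6.2] at hx hy
      rw [h18] at hxv hyv
      apply Subtype.ext
      apply Fin.ext
      split_ifs at hx hy <;> omega
    · rw [c4 v h2, c5 v h18] at hx
      exact absurd rfl hx

theorem faultCost_le : faultCost G32 ≤ 1 := by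
  have h1 : IsMl G32 (pathOn F) := isMl_pathOn not_ham F_bij (by norm_num) F_le
  have h2 : faultCost G32 ≤ faultCostAt G32 (pathOn F) := Nat.sInf_le ⟨pathOn F, h1, rfl⟩
  refine h2.trans ?_
  unfold faultCostAt
  apply ciSup_le
  intro v
  have h3 : sInf {c | ∃ S', IsMl (del G32 v) S' ∧ cost (pathOn F) v S' = c} ≤
      cost (pathOn F) v (pathOn (P v)) :=
    Nat.sInf_le ⟨pathOn (P v), isMl_pathOn (not_ham_del v) (P_bij v) (by norm_num) (P_le v), rfl⟩
  exact h3.trans (cost_le v)

theorem one_le_faultCost : 1 ≤ faultCost G32 := by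
  have h1 : IsMl G32 (pathOn F) := isMl_pathOn not_ham F_bij (by norm_num) F_le
  have hne : {c | ∃ S, IsMl G32 S ∧ faultCostAt G32 S = c}.Nonempty := ⟨_, pathOn F, h1, rfl⟩
  obtain ⟨S, hS, hc⟩ := Nat.sInf_mem hne
  unfold faultCost
  rw [← hc]
  have hl : leaves S = 2 := by
    rcases hS with h | h
    · exact absurd ⟨S, h⟩ not_ham
    · rw [h.2.2]
      exact ml_eq_two not_ham F_bij (by norm_num) F_le
  obtain ⟨v, hv⟩ : {w | dg S w = 1}.Nonempty := by
    rw [← Set.ncard_pos (Set.toFinite _)]
    unfold leaves at hl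
    omega
  have hv' : dg S v = 1 := hv
  unfold faultCostAt
  refine le_trans ?_ (le_ciSup (Set.finite_range _).bddAbove v)
  have hne' : {c | ∃ S', IsMl (del G32 v) S' ∧ cost S v S' = c}.Nonempty :=
    ⟨_, pathOn (P v), isMl_pathOn (not_ham_del v) (P_bij v) (by norm_num) (P_le v), rfl⟩
  obtain ⟨S', -, hc'⟩ := Nat.sInf_mem hne'
  rw [← hc']
  exact one_le_cost S v hv' S'

/-- There is a cubic 2-connected graph with fault cost 1. -/
theorem result : ∃ G : SimpleGraph (Fin 32), (∀ w, dg G w = 3) ∧ TwoConnected G ∧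
    faultCost G = 1 := by
  refine ⟨G32, dg_three, ⟨?_, ?_, ?_⟩, le_antisymm faultCost_le one_le_faultCost⟩
  · simp
  · exact (pathOn_connected F_bij).mono F_le
  · intro v
    exact (pathOn_connected (P_bij v)).mono (P_le v)

end Pool.Agent.Results.MP_54aac5_co.CubicFaultCostOne
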